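import Mathlib

set_option autoImplicit false

/-!
# Maximum individual cost in fast contract-signing protocols

For all `N ≥ 2` there is a fast protocol in which every party pays at most `3 ⌈√N⌉`; in particular
`M(N) / N` tends to zero.
-/

namespace Pool.Agent.Results.MP_e6c168_lc.SqrtCost

open Finset Filter

/-- A fast protocol for `N` parties: permutations `P n` of the parties, `P n d` being the holder of
contract `n` on day `d`; contract `n` is at its owner `n` on the last day `N - 1`. -/
def IsFast {N : ℕ} (P : Fin N → Equiv.Perm (Fin N)) : Prop :=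
  ∀ n d : Fin N, (d : ℕ) = N - 1 → P n d = n

/-- The amount paid by party `i`: the number of pairs `(d, j)` such that `i` sends an envelope to
`j` on day `d`, i.e. some contract is at `i` on day `d` and at `j` on day `d + 1`. -/
noncomputable def cost {N : ℕ} (P : Fin N → Equiv.Perm (Fin N)) (i : Fin N) : ℕ :=
  Set.ncard {q : Fin N × Fin N | ∃ n d' : Fin N, (d' : ℕ) = q.1 + 1 ∧ P n q.1 = i ∧ P n d' = q.2}

/-- `M N` is the minimum over all fast protocols of the maximal individual cost. -/
noncomputable def M (N : ℕ) : ℕ :=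
  sInf {m | ∃ P : Fin N → Equiv.Perm (Fin N), IsFast P ∧ ∀ i, cost P i ≤ m}

/-! ### The construction -/

section Construction

variable (N s : ℕ)

/-- start of the block of `n` -/
def st (n : ℕ) : ℕ := s * (n / s)

/-- size of the block of `n` -/
def sz (n : ℕ) : ℕ := min s (N - st s n)

/-- holder of contract `n` on day `d` -/
def holder (n d : ℕ) : ℕ :=
  if d < N - sz N s n then (st s n + sz N s n + d) % N
  else st s n + (n - st s n + 1 + (d - (N - sz N s n))) % sz N s n

variable {N s}

theorem st_le (n : ℕ) : st s n ≤ n := Nat.mul_div_le n s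

theorem lt_st_add (hs : 0 < s) (n : ℕ) : n < st s n + s := by
  unfold st
  have := Nat.lt_mul_div_succ n hs
  rw [Nat.mul_add, Nat.mul_one] at this
  exact this

theorem sz_pos (hs : 0 < s) {n : ℕ} (hn : n < N) : 0 < sz N s n := by
  unfold sz
  have := st_le (s := s) n
  omega

theorem st_add_sz_le {n : ℕ} (hn : n < N) : st s n + sz N s n ≤ N := by
  unfold sz
  have := st_le (s := s) n
  omega

theorem lt_st_add_sz (hs : 0 < s) {n : ℕ} (hn : n < N) : n < st s n + sz N s n := by
  unfold sz
  have := st_le (s := s) n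
  have := lt_st_add hs n
  omega

theorem holder_first {n d : ℕ} (hn : n < N) (hd : d < N - sz N s n) :
    (holder N s n d = st s n + sz N s n + d ∧ st s n + sz N s n + d < N) ∨
    (holder N s n d + N = st s n + sz N s n + d ∧ holder N s n d < st s n) := by
  have h1 := st_add_sz_le (s := s) hn
  unfold holder
  rw [if_pos hd]
  rcases lt_or_ge (st s n + sz N s n + d) N with h | h
  · left
    exact ⟨Nat.mod_eq_of_lt h, h⟩
  · right
    rw [Nat.mod_eq_sub_mod h, Nat.mod_eq_of_lt (by omega)]
    omega

theorem holder_second (hs : 0 < s) {n d : ℕ} (hn : n < N) (hd : ¬ d < N - sz N s n) :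
    st s n ≤ holder N s n d ∧ holder N s n d < st s n + sz N s n := by
  have h0 := sz_pos hs hn
  unfold holder
  rw [if_neg hd]
  have := Nat.mod_lt (n - st s n + 1 + (d - (N - sz N s n))) h0
  omega

theorem holder_lt (hs : 0 < s) {n d : ℕ} (hn : n < N) : holder N s n d < N := by
  have h1 := st_add_sz_le (s := s) hn
  by_cases hd : d < N - sz N s n
  · rcases holder_first hn hd with h | h <;> omega
  · have := holder_second hs hn hd
    omega

theorem holder_inj (hs : 0 < s) {n d d' : ℕ} (hn : n < N) (hd : d < N) (hd' : d' < N)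
    (h : holder N s n d = holder N s n d') : d = d' := by
  have h1 := st_add_sz_le (s := s) hn
  have h0 := sz_pos hs hn
  by_cases h2 : d < N - sz N s n
  · by_cases h3 : d' < N - sz N s n
    · rcases holder_first hn h2 with h4 | h4 <;> rcases holder_first hn h3 with h5 | h5 <;> omega
    · have h5 := holder_second hs hn h3
      rcases holder_first hn h2 with h4 | h4 <;> omega
  · by_cases h3 : d' < N - sz N s n
    · have h5 := holder_second hs hn h2
      rcases holder_first hn h3 with h4 | h4 <;> omega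
    · unfold holder at h
      rw [if_neg h2, if_neg h3] at h
      have h4 : (n - st s n + 1 + (d - (N - sz N s n))) % sz N s n =
          (n - st s n + 1 + (d' - (N - sz N s n))) % sz N s n := by omega
      have h5 : (d - (N - sz N s n)) % sz N s n = (d' - (N - sz N s n)) % sz N s n :=
        Nat.ModEq.add_left_cancel' (n - st s n + 1) h4
      have hsz : sz N s n ≤ N := by omega
      rw [Nat.mod_eq_of_lt (by omega), Nat.mod_eq_of_lt (by omega)] at h5
      omega

theorem holder_last (hs : 0 < s) {n : ℕ} (hn : n < N) : holder N s n (N - 1) = n := by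
  have h0 := sz_pos hs hn
  have h1 := st_add_sz_le (s := s) hn
  have h2 := lt_st_add_sz hs hn
  have h3 := st_le (s := s) n
  unfold holder
  rw [if_neg (by omega)]
  have h4 : n - st s n + 1 + (N - 1 - (N - sz N s n)) = n - st s n + sz N s n := by omega
  rw [h4, Nat.add_mod_right, Nat.mod_eq_of_lt (by omega)]
  omega

/-- the protocol -/
noncomputable def prot (hs : 0 < s) (n : Fin N) : Equiv.Perm (Fin N) :=
  Equiv.ofBijective (fun d : Fin N => (⟨holder N s n d, holder_lt hs n.isLt⟩ : Fin N))
    ((Fintype.bijective_iff_injective_and_card _).mpr ⟨by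
      intro d d' h
      have h1 : holder N s n d = holder N s n d' := by
        have := congrArg Fin.val h
        exact this
      exact Fin.ext (holder_inj hs n.isLt d.isLt d'.isLt h1), rfl⟩)

theorem prot_val (hs : 0 < s) (n d : Fin N) : ((prot hs n d : Fin N) : ℕ) = holder N s n d := rfl

theorem prot_fast (hs : 0 < s) : IsFast (prot (N := N) hs) := by
  intro n d hd
  ext
  rw [prot_val, hd, holder_last hs n.isLt]

/-- Contracts of a block that neither contains `i` nor follows `i` leave `i` together. -/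
theorem generic_pair (hs : 0 < s) {n i d : ℕ} (hn : n < N) (hi : i < N) (hd : d + 1 < N)
    (h1 : holder N s n d = i) (hne : n / s ≠ i / s) (hnext : st s n ≠ (i + 1) % N) :
    (d + (st s n + sz N s n) = i ∨ d + (st s n + sz N s n) = i + N) ∧
      holder N s n (d + 1) = (i + 1) % N := by
  have hst := st_add_sz_le (s := s) hn
  have h0 := sz_pos hs hn
  have hA := lt_st_add_sz hs hn
  have hB := st_le (s := s) n
  have hblock : ¬ (st s n ≤ i ∧ i < st s n + sz N s n) := by
    rintro ⟨h2, h3⟩
    apply hne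
    have h4 : i < st s n + s := by
      have : sz N s n ≤ s := min_le_left _ _
      omega
    symm
    apply Nat.div_eq_of_lt_le
    · rw [Nat.mul_comm]; exact h2
    · rw [Nat.add_mul, Nat.one_mul, Nat.mul_comm]; exact h4
  have hdlt : d < N - sz N s n := by
    by_contra hcon
    exact hblock (by rw [← h1]; exact holder_second hs hn hcon)
  have hd' : d + 1 < N - sz N s n := by
    by_contra hcon
    apply hnext
    rcases holder_first hn hdlt with h2 | h2
    · -- then `i + 1` is `N` and the block starts at `0`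
      have h3 : i + 1 = N := by omega
      rw [h3, Nat.mod_self]
      omega
    · have h3 : i + 1 = st s n := by omega
      rw [h3, Nat.mod_eq_of_lt (by omega)]
  refine ⟨?_, ?_⟩
  · rcases holder_first hn hdlt with h2 | h2
    · left; omega
    · right; omega
  · unfold holder at h1 ⊢
    rw [if_pos hdlt] at h1
    rw [if_pos hd', ← h1, ← Nat.add_assoc, Nat.mod_add_mod]

theorem cost_le (hs : 0 < s) (hN : N ≤ s ^ 2) (i : Fin N) : cost (prot (N := N) hs) i ≤ 3 * s := by
  classical
  have hN0 : 0 < N := lt_of_le_of_lt (Nat.zero_le _) i.isLt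
  -- contracts of the block of `i`
  set S1 : Finset (Fin N) := univ.filter (fun n : Fin N => (n : ℕ) / s = i / s) with hS1
  set S2 : Finset (Fin N) := univ.filter (fun n : Fin N => st s n = ((i : ℕ) + 1) % N) with hS2
  have hcard : ∀ c : ℕ, ∀ S : Finset (Fin N), (∀ n ∈ S, c ≤ (n : ℕ) ∧ (n : ℕ) < c + s) →
      S.card ≤ s := by
    intro c S hS
    have h1 : S.card = (S.image (fun n : Fin N => (n : ℕ))).card :=
      (card_image_of_injective _ Fin.val_injective).symm
    rw [h1]
    have h2 : S.image (fun n : Fin N => (n : ℕ)) ⊆ Ico c (c + s) := by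
      intro m hm
      rw [mem_image] at hm
      obtain ⟨n, hn, rfl⟩ := hm
      rw [mem_Ico]
      exact hS n hn
    have h3 := card_le_card h2
    rw [Nat.card_Ico] at h3
    omega
  have hS1c : S1.card ≤ s := by
    apply hcard (s * (i / s))
    intro n hn
    rw [hS1, mem_filter] at hn
    have h1 := st_le (s := s) (n : ℕ)
    have h2 := lt_st_add hs (n : ℕ)
    unfold st at h1 h2
    rw [hn.2] at h1 h2
    exact ⟨h1, h2⟩
  have hS2c : S2.card ≤ s := by
    apply hcard (((i : ℕ) + 1) % N)
    intro n hn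
    rw [hS2, mem_filter] at hn
    have h1 := st_le (s := s) (n : ℕ)
    have h2 := lt_st_add hs (n : ℕ)
    rw [hn.2] at h1 h2
    exact ⟨h1, h2⟩
  -- the pair of a contract
  let nx : Fin N → Fin N := fun d => ⟨((d : ℕ) + 1) % N, Nat.mod_lt _ hN0⟩
  let g1 : Fin N → Fin N × Fin N := fun n =>
    ((prot hs n).symm i, prot hs n (nx ((prot hs n).symm i)))
  let g2 : ℕ → Fin N × Fin N := fun a =>
    (⟨(i + (N - min (s * a + s) N)) % N, Nat.mod_lt _ hN0⟩, nx i)
  have hsub : {q : Fin N × Fin N | ∃ n d' : Fin N, (d' : ℕ) = q.1 + 1 ∧ prot hs n q.1 = i ∧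
      prot hs n d' = q.2} ⊆ (((S1 ∪ S2).image g1 ∪ (range s).image g2 : Finset (Fin N × Fin N)) :
        Set (Fin N × Fin N)) := by
    rintro ⟨d, j⟩ ⟨n, d', hd', h1, h2⟩
    simp only at hd' h1 h2
    have hdlt : (d : ℕ) + 1 < N := by rw [← hd']; exact d'.isLt
    have hnx : nx d = d' := by
      ext
      simp only [nx]
      rw [Nat.mod_eq_of_lt hdlt, hd']
    rw [mem_coe, mem_union]
    by_cases hcase : n ∈ S1 ∪ S2
    · left
      rw [mem_image]
      refine ⟨n, hcase, ?_⟩
      have h3 : (prot hs n).symm i = d := by rw [← h1, Equiv.symm_apply_apply]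
      simp only [g1]
      rw [h3, hnx, h2]
    · right
      rw [mem_union, not_or] at hcase
      have h3 : (n : ℕ) / s ≠ i / s := by
        intro h
        exact hcase.1 (by rw [hS1, mem_filter]; exact ⟨mem_univ _, h⟩)
      have h4 : st s n ≠ ((i : ℕ) + 1) % N := by
        intro h
        exact hcase.2 (by rw [hS2, mem_filter]; exact ⟨mem_univ _, h⟩)
      have h5 : holder N s n d = i := by rw [← prot_val hs, h1]
      obtain ⟨h6, h7⟩ := generic_pair hs n.isLt i.isLt hdlt h5 h3 h4
      rw [mem_image]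
      refine ⟨(n : ℕ) / s, ?_, ?_⟩
      · rw [mem_range]
        apply Nat.div_lt_of_lt_mul
        have := n.isLt
        rw [sq] at hN
        omega
      · have hst := st_add_sz_le (s := s) n.isLt
        have hend : min (s * ((n : ℕ) / s) + s) N = st s n + sz N s n := by
          unfold sz
          have : st s n = s * ((n : ℕ) / s) := rfl
          have := st_le (s := s) (n : ℕ)
          have := n.isLt
          omega
        simp only [g2]
        rw [hend, Prod.mk.injEq]
        constructor
        · ext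
          simp only
          rcases h6 with h6 | h6
          · have : (i : ℕ) + (N - (st s n + sz N s n)) = d + N := by omega
            rw [this, Nat.add_mod_right, Nat.mod_eq_of_lt d.isLt]
          · have : (i : ℕ) + (N - (st s n + sz N s n)) = d := by omega
            rw [this, Nat.mod_eq_of_lt d.isLt]
        · rw [← h2]
          ext
          simp only [nx]
          rw [prot_val, hd', h7]
  unfold cost
  calc Set.ncard {q : Fin N × Fin N | ∃ n d' : Fin N, (d' : ℕ) = q.1 + 1 ∧ prot hs n q.1 = i ∧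
      prot hs n d' = q.2} ≤ Set.ncard (((S1 ∪ S2).image g1 ∪ (range s).image g2 :
        Finset (Fin N × Fin N)) : Set (Fin N × Fin N)) :=
        Set.ncard_le_ncard hsub (Finset.finite_toSet _)
    _ = ((S1 ∪ S2).image g1 ∪ (range s).image g2).card := Set.ncard_coe_finset _
    _ ≤ ((S1 ∪ S2).image g1).card + ((range s).image g2).card := card_union_le _ _
    _ ≤ (S1 ∪ S2).card + (range s).card := add_le_add card_image_le card_image_le
    _ ≤ (S1.card + S2.card) + s := by
        rw [card_range]
        exact Nat.add_le_add_right (card_union_le _ _) s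
    _ ≤ 3 * s := by omega

end Construction

/-- Every `N ≥ 2` has a fast protocol in which every party pays at most `3 s`, for every `s` with
`N ≤ s ^ 2`; so `M(N) ≤ 3 ⌈√N⌉`, `M(N) / N → 0`, and the linear lower bound fails. -/
theorem result :
    (¬ ∃ c : ℝ, 0 < c ∧ ∀ N : ℕ, 2 ≤ N → ∀ P : Fin N → Equiv.Perm (Fin N), IsFast P →
      ∃ i, c * N ≤ (cost P i : ℝ)) ∧
    (∀ N s : ℕ, 2 ≤ N → N ≤ s ^ 2 → ∃ P : Fin N → Equiv.Perm (Fin N), IsFast P ∧
      ∀ i, cost P i ≤ 3 * s) ∧
    (∀ N : ℕ, 2 ≤ N → M N ≤ 3 * ⌈Real.sqrt N⌉₊) ∧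
    Tendsto (fun N : ℕ => (M N : ℝ) / N) atTop (nhds 0) := by
  have h2 : ∀ N s : ℕ, 2 ≤ N → N ≤ s ^ 2 → ∃ P : Fin N → Equiv.Perm (Fin N), IsFast P ∧
      ∀ i, cost P i ≤ 3 * s := by
    intro N s hN hs
    have hs0 : 0 < s := by
      rcases Nat.eq_zero_or_pos s with h | h
      · subst h; simp at hs; omega
      · exact h
    exact ⟨prot hs0, prot_fast hs0, cost_le hs0 hs⟩
  have h3 : ∀ N : ℕ, 2 ≤ N → M N ≤ 3 * ⌈Real.sqrt N⌉₊ := by
    intro N hN
    have h4 : N ≤ ⌈Real.sqrt N⌉₊ ^ 2 := by
      have h5 : (N : ℝ) ≤ ((⌈Real.sqrt N⌉₊ : ℕ) : ℝ) ^ 2 := by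
        calc (N : ℝ) = Real.sqrt N ^ 2 := (Real.sq_sqrt (Nat.cast_nonneg N)).symm
          _ ≤ _ := pow_le_pow_left₀ (Real.sqrt_nonneg _) (Nat.le_ceil _) 2
      exact_mod_cast h5
    obtain ⟨P, hP, hc⟩ := h2 N _ hN h4
    exact Nat.sInf_le ⟨P, hP, hc⟩
  refine ⟨?_, h2, h3, ?_⟩
  · rintro ⟨c, hc, h⟩
    obtain ⟨s, hs⟩ := exists_nat_gt (3 / c)
    have hs2 : 2 ≤ (s + 2) ^ 2 :=
      le_trans (by norm_num) (Nat.pow_le_pow_left (show 2 ≤ s + 2 by omega) 2)
    obtain ⟨P, hP, hcost⟩ := h2 ((s + 2) ^ 2) (s + 2) hs2 le_rfl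
    obtain ⟨i, hi⟩ := h _ hs2 P hP
    have h4 : (cost P i : ℝ) ≤ 3 * (s + 2) := by exact_mod_cast hcost i
    have h5 : c * (((s + 2) ^ 2 : ℕ) : ℝ) ≤ 3 * (s + 2) := hi.trans h4
    push_cast at h5
    rw [div_lt_iff₀ hc] at hs
    have h6 : (0 : ℝ) ≤ s := Nat.cast_nonneg s
    nlinarith [mul_pos hc (show (0 : ℝ) < (s : ℝ) + 2 by linarith)]
  · have hlim : Tendsto (fun N : ℕ => 6 / Real.sqrt N) atTop (nhds 0) := by
      apply Tendsto.const_div_atTop
      exact Real.tendsto_sqrt_atTop.comp tendsto_natCast_atTop_atTop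
    apply squeeze_zero' (Eventually.of_forall (fun N => by positivity)) _ hlim
    filter_upwards [eventually_ge_atTop 2] with N hN
    have hN' : (2 : ℝ) ≤ N := by exact_mod_cast hN
    have hsq : 1 ≤ Real.sqrt N := by
      rw [Real.one_le_sqrt]; linarith
    have h4 : (M N : ℝ) ≤ 3 * (⌈Real.sqrt N⌉₊ : ℕ) := by exact_mod_cast h3 N hN
    have h5 : ((⌈Real.sqrt N⌉₊ : ℕ) : ℝ) < Real.sqrt N + 1 := Nat.ceil_lt_add_one (Real.sqrt_nonneg _)
    rw [div_le_div_iff₀ (by linarith) (by linarith)]
    have h6 : Real.sqrt N * Real.sqrt N = N := Real.mul_self_sqrt (by linarith)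
    calc (M N : ℝ) * Real.sqrt N ≤ (6 * Real.sqrt N) * Real.sqrt N := by
          apply mul_le_mul_of_nonneg_right _ (by linarith)
          linarith
      _ = 6 * N := by rw [mul_assoc, h6]

end Pool.Agent.Results.MP_e6c168_lc.SqrtCost
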